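import Pool.Agent.helper81.CX.Spec2
import Pool.Agent.helper71.CL.All

/-! Row cx:BL2 (MP_447e26_gt): the rate is at least 0.8189 -/

set_option autoImplicit false

open MeasureTheory Set Filter Topology
open scoped ENNReal
open Pool.Agent.helper81.CW

namespace Pool.Agent.CX

theorem BL2 (hML2 : ML2_stmt) : BL2_stmt := by
  obtain ⟨β, -, hβ2, h1, h2, h3⟩ := Pool.Agent.CL.all_CFIN
  refine ⟨β, ?_, hβ2, h1, h2, h3⟩
  refine ge_of_tendsto h2 ?_
  filter_upwards [hML2, eventually_ge_atTop 1] with n hn hn1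
  have hle : mvol n ≤ 1 := (Pool.Agent.CL.all_MVB n hn1).1
  have hfin : mvol n ≠ ⊤ := ne_top_of_le_ne_top ENNReal.one_ne_top hle
  have h4 : (0.8189 : ℝ) ^ n ≤ (mvol n).toReal := (ENNReal.ofReal_le_iff_le_toReal hfin).1 hn
  have hn0 : (n : ℝ) ≠ 0 := by
    have : n ≠ 0 := by omega
    exact_mod_cast this
  have h5 : (0.8189 : ℝ) = ((0.8189 : ℝ) ^ n) ^ (1 / (n : ℝ)) := by
    rw [← Real.rpow_natCast, ← Real.rpow_mul (by norm_num), mul_one_div_cancel hn0, Real.rpow_one]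
  calc (0.8189 : ℝ) = ((0.8189 : ℝ) ^ n) ^ (1 / (n : ℝ)) := h5
    _ ≤ (mvol n).toReal ^ (1 / (n : ℝ)) := Real.rpow_le_rpow (by positivity) h4 (by positivity)

end Pool.Agent.CX
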