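import Pool.Agent.helper81.CX.Spec2

/-! Row cx:CRB (MP_447e26_gt): basic facts about the Mehler operator and the correlations -/

set_option autoImplicit false

open MeasureTheory Set Filter Topology
open scoped ENNReal
open Pool.Agent.helper81.CW

namespace Pool.Agent.CX

theorem CRB_mix_meas (n : ℕ) (t : ℝ) : Measurable (fun p : E n × E n => mix t p.1 p.2) := by
  unfold mix
  fun_prop

theorem CRB (hG1 : G1_stmt) (hROM : ROM_stmt) : CRB_stmt := by
  intro n f g t hf hg ht
  have : IsProbabilityMeasure (gm n) := (hG1 n).1
  have hint : ∀ x, Integrable (fun y => g (mix t x y)) (gm n) := by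
    intro x
    refine Integrable.of_bound ((hg.1.comp ((CRB_mix_meas n t).comp measurable_prodMk_left)).aestronglyMeasurable) 2 ?_
    exact Eventually.of_forall fun y => hg.2 _
  have hmeas : StronglyMeasurable (fun p : E n × E n => g (mix t p.1 p.2)) :=
    (hg.1.comp (CRB_mix_meas n t)).stronglyMeasurable
  have hPm : Measurable (PP g t) := by
    unfold PP
    exact (hmeas.integral_prod_right' (ν := gm n)).measurable
  have hPb : ∀ x, ‖PP g t x‖ ≤ 2 := by
    intro x
    unfold PP
    have h1 := norm_integral_le_of_norm_le_const (μ := gm n) (f := fun y => g (mix t x y)) (C := 2)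
      (Eventually.of_forall fun y => hg.2 _)
    simpa using h1
  refine ⟨⟨hPm, hPb⟩, ?_, ?_, ?_⟩
  · unfold CR PP
    refine integral_congr_ae (Eventually.of_forall fun x => ?_)
    exact integral_inner (hint x) (f x)
  · have ht2 : t ^ 2 + Real.sqrt (1 - t ^ 2) ^ 2 = 1 := by
      have h0 : 0 ≤ 1 - t ^ 2 := by
        have := (sq_le_one_iff_abs_le_one t).2 ht
        linarith
      rw [Real.sq_sqrt h0]
      ring
    have hmp := (hROM n t (Real.sqrt (1 - t ^ 2)) ht2).2
    have hgi : Integrable (fun p : E n × E n => g (mix t p.1 p.2)) ((gm n).prod (gm n)) := by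
      refine Integrable.of_bound hmeas.aestronglyMeasurable 2 ?_
      exact Eventually.of_forall fun y => hg.2 _
    unfold PP
    rw [← integral_prod _ hgi]
    have h3 := hmp.map_eq
    have h4 : ∫ x, g x ∂(gm n) = ∫ x, g x ∂(Measure.map (fun p : E n × E n => t • p.1 + Real.sqrt (1 - t ^ 2) • p.2) ((gm n).prod (gm n))) := by
      rw [h3]
    rw [h4, integral_map hmp.measurable.aemeasurable hg.1.aestronglyMeasurable]
    rfl
  · unfold CR
    refine integral_congr_ae (Eventually.of_forall fun x => ?_)
    have e : ∀ y : E n, mix 1 x y = x := by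
      intro y
      unfold mix
      simp
    simp only [e]
    simp

end Pool.Agent.CX
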